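import Pool.Agent.H20.TU.CHT
import Pool.Agent.H20.TU.DVQ

/-!
# THEOREM V (MP_e49dc9_ag): a good affine chart which avoids finitely many prime divisors
-/

set_option autoImplicit false

namespace Pool.Agent.H46.TV

open Pool.Agent.H54.RV Pool.Agent.H83.TU Pool.Agent.H24.TU Pool.Agent.H20.TU

variable {k K : Type} [Field k] [Field K] [Algebra k K] {X : Mod k K}

theorem chartT (hX : IsVar X) (hg : ∃ g, Gen X g) (C : Coord k K) (D : Cart X) (T : Finset X.P)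
    (hT : ∀ x ∈ T, ∃ f ∈ X.O x, f ≠ 0 ∧ ¬ Un (X.O x) f) :
    ∃ U : Set X.P, X.aff U ∧ U.Nonempty ∧ (∀ i, C.c i ∈ X.sec U) ∧ (∀ i, ∀ b ∈ X.sec U, C.d i b ∈ X.sec U) ∧
      (∀ x ∈ T, x ∉ U) ∧ ∃ h : K, h ≠ 0 ∧ ∀ y ∈ U, Un (X.O y) (D.eq y / h) := by
  classical
  obtain ⟨U, hU, hne, hcU, hdU, h, h0, hDh⟩ := chart hX hg C D
  obtain ⟨g, hgg⟩ := hg
  have hgU := gen_mem hgg U (hX.op U hU) hne
  have hle : ∀ x ∈ U, X.sec U ≤ X.O x := fun x hx a ha => (mem_sec U a).1 ha x hx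
  have hb : ∀ x : X.P, ∃ b ∈ X.sec U, b ≠ 0 ∧ (x ∈ T → x ∈ U → ¬ Un (X.O x) b) := by
    intro x
    by_cases hx : x ∈ T ∧ x ∈ U
    · obtain ⟨f, hf, hf0, hfu⟩ := hT x hx.1
      obtain ⟨s, hs, hsu, hfs⟩ := hX.frac U x hU hx.2 f hf
      refine ⟨f * s, hfs, mul_ne_zero hf0 hsu.1, fun _ _ hu => hfu ?_⟩
      have h1 : Un (X.O x) (f * s * s⁻¹) := Un.mul hu (Un.inv hsu)
      rwa [mul_assoc, mul_inv_cancel₀ hsu.1, mul_one] at h1
    · exact ⟨1, one_mem _, one_ne_zero, fun h1 h2 => absurd ⟨h1, h2⟩ hx⟩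
  choose b hbU hb0 hbu using hb
  obtain ⟨π, hπ⟩ : ∃ π, π = ∏ x ∈ T, b x := ⟨_, rfl⟩
  have hπU : π ∈ X.sec U := by
    rw [hπ]; exact prod_mem fun x _ => hbU x
  have hπ0 : π ≠ 0 := by
    rw [hπ]; exact Finset.prod_ne_zero_iff.2 fun x _ => hb0 x
  have hπy : ∀ y ∈ U, π ∈ X.O y := (mem_sec U π).1 hπU
  have hU3 := hX.basic U π hU hπy
  obtain ⟨U3, hU3e⟩ : ∃ U3, U3 = {x | x ∈ U ∧ Un (X.O x) π} := ⟨_, rfl⟩
  rw [← hU3e] at hU3
  have hgU3 : g ∈ U3 := by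
    rw [hU3e]
    refine ⟨hgU, hπ0, ?_, ?_⟩
    · rw [hgg.top]; exact Algebra.mem_top
    · rw [hgg.top]; exact Algebra.mem_top
  have hle3 : X.sec U ≤ X.sec U3 := by
    intro z hz
    rw [mem_sec] at hz ⊢
    intro y hy
    rw [hU3e] at hy
    exact hz y hy.1
  have hπi : π⁻¹ ∈ X.sec U3 := by
    rw [mem_sec]
    intro y hy
    rw [hU3e] at hy
    exact hy.2.2.2
  refine ⟨U3, hU3, ⟨g, hgU3⟩, fun i => hle3 (hcU i), ?_, ?_, h, h0, ?_⟩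
  · intro i z hz
    obtain ⟨N, hN⟩ := den hX U hU π z hπy (by
      intro y hy hu
      refine (mem_sec U3 z).1 hz y ?_
      rw [hU3e]
      exact ⟨hy, hu⟩)
    have h1 : π ^ N * z ∈ X.sec U := by
      rw [mem_sec]
      exact hN N le_rfl
    have h2 : C.d i (π ^ N * z) ∈ X.sec U3 := hle3 (hdU i _ h1)
    have h4 : C.d i (π ^ N) ∈ X.sec U3 := hle3 (hdU i _ (pow_mem hπU N))
    rw [Derivation.leibniz, smul_eq_mul, smul_eq_mul] at h2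
    have h5 : C.d i z = (π⁻¹) ^ N * ((π ^ N * C.d i z + z * C.d i (π ^ N)) - z * C.d i (π ^ N)) := by
      rw [add_sub_cancel_right, ← mul_assoc, ← mul_pow, inv_mul_cancel₀ hπ0, one_pow, one_mul]
    rw [h5]
    exact mul_mem (pow_mem hπi N) (sub_mem h2 (mul_mem hz h4))
  · intro x hx hxU
    rw [hU3e] at hxU
    refine hbu x hx hxU.1 ⟨hb0 x, hle x hxU.1 (hbU x), ?_⟩
    have h1 : π = b x * ∏ y ∈ T.erase x, b y := by
      rw [hπ, Finset.mul_prod_erase _ _ hx]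
    have h2 : (b x)⁻¹ = π⁻¹ * ∏ y ∈ T.erase x, b y := by
      have h3 : ∏ y ∈ T.erase x, b y ≠ 0 := Finset.prod_ne_zero_iff.2 fun y _ => hb0 y
      rw [h1, mul_inv, mul_assoc, inv_mul_cancel₀ h3, mul_one]
    rw [h2]
    exact (X.O x).mul_mem hxU.2.2.2 (prod_mem fun y _ => hle x hxU.1 (hbU y))
  · intro y hy
    rw [hU3e] at hy
    exact hDh y hy.1

end Pool.Agent.H46.TV
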