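import Pool.Agent.H20.TU.DVQ

/-!
# THEOREM V (MP_e49dc9_ag): a prime of dimension two where `g` and its derivatives of order `≤ m` vanish

`dvqm`: as `Pool.Agent.H20.TU.dvq`, with the derivatives `(d i)^[j] g`, `j ≤ m`, in `q`: `O` is a discrete valuation ring
and `g` has order at least `m + 1`.
-/

set_option autoImplicit false

open MvPolynomial Pool.Agent.H54.RV Pool.Agent.H20.TU

namespace Pool.Agent.H46.TV

variable {k K : Type} [Field k] [Field K] [Algebra k K]

theorem dvqm [CharZero k] (htr : Algebra.trdeg k K ≤ 3) (B O : Subalgebra k K) (hBO : B ≤ O) [IsLocalRing O]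
    [UniqueFactorizationMonoid O] (hfr : ∀ x ∈ O, ∃ s ∈ B, Un O s ∧ x * s ∈ B) (q : Ideal B) [q.IsPrime]
    (hqO : ∀ a : B, a ∈ q ↔ ¬ Un O (a : K)) (t : Fin 2 → B)
    (ht : AlgebraicIndependent k (fun i => Ideal.Quotient.mk q (t i)))
    (c : Fin 3 → K) (hc : ∀ i, c i ∈ B)
    (d : Fin 3 → Derivation k K K) (hd : ∀ i j, d i (c j) = if i = j then 1 else 0)
    (hdB : ∀ i, ∀ b ∈ B, d i b ∈ B) (m : ℕ) (g : K) (hg0 : g ≠ 0) (hgB : g ∈ B)
    (hdg : ∀ i, ∀ j ≤ m, ∃ hB : (d i)^[j] g ∈ B, (⟨(d i)^[j] g, hB⟩ : B) ∈ q) :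
    IsDiscreteValuationRing O ∧ ∃ π ∈ O, ¬ Un O π ∧ π ≠ 0 ∧ g / π ^ (m + 1) ∈ O := by
  classical
  have hgq : (⟨g, hgB⟩ : B) ∈ q := by
    obtain ⟨h1, h2⟩ := hdg 0 0 (Nat.zero_le m)
    exact h2
  -- four algebraically independent elements do not exist
  have hfour : ∀ y : Option (Option (Fin 2)) → K, ¬ AlgebraicIndependent k y := by
    intro y hy
    have h1 := hy.cardinalMk_le_trdeg.trans htr
    simp at h1
    norm_num at h1
  have hfour3 : ∀ y : Option (Fin 3) → K, ¬ AlgebraicIndependent k y := by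
    intro y hy
    have h1 := hy.cardinalMk_le_trdeg.trans htr
    simp at h1
    norm_num at h1
  -- the maximal ideal of `O`
  have hnu : ∀ x ∈ O, ¬ Un O x → ∀ s ∈ B, Un O s → ∀ h : x * s ∈ B, (⟨x * s, h⟩ : B) ∈ q := by
    intro x hx hxu s hs hsu h
    rw [hqO]
    intro h1
    apply hxu
    have h2 : Un O (x * s * s⁻¹) := Un.mul h1 (Un.inv hsu)
    rwa [mul_assoc, mul_inv_cancel₀ hsu.1, mul_one] at h2
  have hnadd : ∀ x ∈ O, ¬ Un O x → ∀ y ∈ O, ¬ Un O y → ¬ Un O (x + y) := by
    intro x hx hxu y hy hyu h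
    have h1 : ¬ IsUnit (⟨x, hx⟩ : O) := fun h => hxu ((isUnit_iff _).1 h)
    have h2 : ¬ IsUnit (⟨y, hy⟩ : O) := fun h => hyu ((isUnit_iff _).1 h)
    have h3 : IsUnit (⟨x, hx⟩ + ⟨y, hy⟩ : O) := (isUnit_iff _).2 h
    rcases IsLocalRing.isUnit_or_isUnit_of_isUnit_add h3 with h4 | h4
    · exact h1 h4
    · exact h2 h4
  have hnmul : ∀ x ∈ O, ∀ y ∈ O, ¬ Un O y → ¬ Un O (x * y) := by
    intro x hx y hy hyu h
    apply hyu
    have h1 : IsUnit ((⟨x, hx⟩ : O) * ⟨y, hy⟩) := (isUnit_iff _).2 h
    exact (isUnit_iff _).1 (isUnit_of_mul_isUnit_right h1)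
  -- every irreducible element divides every nonunit
  have hirr : ∀ p : O, Irreducible p → ∀ x ∈ O, ¬ Un O x → ∃ y ∈ O, x = p * y := by
    intro p hp x hx hxu
    have hprime : Prime p := UniqueFactorizationMonoid.irreducible_iff_prime.1 hp
    have hp0 : (p : K) ≠ 0 := fun h => hprime.ne_zero (Subtype.ext h)
    let ι : B →+* O := (Subalgebra.inclusion hBO : B →ₐ[k] O)
    let q' : Ideal B := (Ideal.span {p}).comap ι
    have hspan : (Ideal.span {p}).IsPrime := (Ideal.span_singleton_prime hprime.ne_zero).2 hprime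
    have hq' : q'.IsPrime := Ideal.IsPrime.comap ι
    have hle : q' ≤ q := by
      intro b hb
      rw [hqO]
      intro hu
      have h1 : IsUnit (ι b) := (isUnit_iff _).2 hu
      rw [Ideal.mem_comap, Ideal.mem_span_singleton] at hb
      exact hprime.not_isUnit (isUnit_of_dvd_unit hb h1)
    have hge : q ≤ q' := by
      by_contra hcon
      obtain ⟨b, hb, hb'⟩ := SetLike.not_le_iff_exists.1 hcon
      -- a nonzero element of `q'`
      obtain ⟨s, hs, hsu, hps⟩ := hfr p p.2
      have h1 : (⟨(p : K) * s, hps⟩ : B) ∈ q' := by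
        rw [Ideal.mem_comap, Ideal.mem_span_singleton]
        exact ⟨⟨s, hBO hs⟩, Subtype.ext rfl⟩
      have h10 : (⟨(p : K) * s, hps⟩ : B) ≠ 0 := fun h => mul_ne_zero hp0 hsu.1 (congrArg Subtype.val h)
      have hdom : IsDomain (B ⧸ q') := Ideal.Quotient.isDomain q'
      -- first step: in `B/q'`
      let f : (B ⧸ q') →ₐ[k] (B ⧸ q) := Ideal.Quotient.factorₐ k hle
      have hf : ∀ z : B, f (Ideal.Quotient.mk q' z) = Ideal.Quotient.mk q z := fun z => rfl
      have h2 : AlgebraicIndependent k (fun i => f (Ideal.Quotient.mk q' (t i))) := ht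
      have h3 : AlgebraicIndependent k (fun o : Option (Fin 2) => o.elim (Ideal.Quotient.mk q' b)
          (fun i => Ideal.Quotient.mk q' (t i))) :=
        option_ind f h2 (by rw [hf]; exact Ideal.Quotient.eq_zero_iff_mem.2 hb)
          (fun h => hb' (Ideal.Quotient.eq_zero_iff_mem.1 h))
      have h4 : AlgebraicIndependent k (fun o : Option (Fin 2) => Ideal.Quotient.mk q' (o.elim b t)) := by
        convert h3 using 1
        funext o
        cases o <;> rfl
      have h5 := option_ind (Ideal.Quotient.mkₐ k q') h4 (Ideal.Quotient.eq_zero_iff_mem.2 h1) h10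
      have h6 := h5.map' (f := B.val) Subtype.val_injective
      exact hfour _ h6
    obtain ⟨s, hs, hsu, hxs⟩ := hfr x hx
    have h1 := hge (hnu x hx hxu s hs hsu hxs)
    rw [Ideal.mem_comap, Ideal.mem_span_singleton] at h1
    obtain ⟨y, hy⟩ := h1
    refine ⟨y * s⁻¹, O.mul_mem y.2 hsu.2.2, ?_⟩
    have h2 : x * s = p * y := congrArg Subtype.val hy
    rw [← mul_assoc, ← h2, mul_assoc, mul_inv_cancel₀ hsu.1, mul_one]
  have hgO : g ∈ O := hBO hgB
  have hgu : ¬ Un O g := (hqO ⟨g, hgB⟩).1 hgq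
  obtain ⟨p, hp, hpg⟩ := WfDvdMonoid.exists_irreducible_factor (a := (⟨g, hgO⟩ : O))
    (fun h => hgu ((isUnit_iff _).1 h)) (fun h => hg0 (congrArg Subtype.val h))
  have hprime : Prime p := UniqueFactorizationMonoid.irreducible_iff_prime.1 hp
  have hp0 : (p : K) ≠ 0 := fun h => hprime.ne_zero (Subtype.ext h)
  have hpu : ¬ Un O (p : K) := fun h => hprime.not_isUnit ((isUnit_iff _).2 h)
  refine ⟨?_, p, p.2, hpu, hp0, ?_⟩
  · refine IsDiscreteValuationRing.of_ufd_of_unique_irreducible ⟨p, hp⟩ ?_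
    intro p1 p2 h1 h2
    have hu1 : ¬ Un O (p1 : K) := fun h => h1.not_isUnit ((isUnit_iff _).2 h)
    have hu2 : ¬ Un O (p2 : K) := fun h => h2.not_isUnit ((isUnit_iff _).2 h)
    obtain ⟨y1, hy1, e1⟩ := hirr p1 h1 p2 p2.2 hu2
    obtain ⟨y2, hy2, e2⟩ := hirr p2 h2 p1 p1.2 hu1
    exact associated_of_dvd_dvd ⟨⟨y1, hy1⟩, Subtype.ext e1⟩ ⟨⟨y2, hy2⟩, Subtype.ext e2⟩
  -- the derivations preserve `O`
  have hdO : ∀ i, ∀ x ∈ O, d i x ∈ O := by
    intro i x hx
    obtain ⟨s, hs, hsu, hxs⟩ := hfr x hx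
    have h1 : d i (x * s) = x * d i s + s * d i x := by
      rw [Derivation.leibniz]; simp [smul_eq_mul]
    have h2 : d i x = (d i (x * s) - x * d i s) * s⁻¹ := by
      rw [h1]
      field_simp [hsu.1]
      ring
    rw [h2]
    exact O.mul_mem (O.sub_mem (hBO (hdB i _ hxs)) (O.mul_mem hx (hBO (hdB i _ hs)))) hsu.2.2
  -- one of the derivatives of `p` is a unit
  have hunit : ∃ i, Un O (d i (p : K)) := by
    by_contra hno
    push Not at hno
    have hdm : ∀ i, ∀ x ∈ O, ¬ Un O x → ¬ Un O (d i x) := by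
      intro i x hx hxu
      obtain ⟨y, hy, e⟩ := hirr p hp x hx hxu
      have h1 : d i x = p * d i y + y * d i p := by
        rw [e, Derivation.leibniz]; simp [smul_eq_mul]
      rw [h1]
      refine hnadd _ (O.mul_mem p.2 (hdO i _ hy)) ?_ _ (O.mul_mem hy (hdO i _ p.2)) (hnmul _ hy _ (hdO i _ p.2) (hno i))
      rw [mul_comm]
      exact hnmul _ (hdO i _ hy) _ p.2 hpu
    -- no nonzero polynomial in the `c i` is in the maximal ideal
    have hcB : ∀ P : MvPolynomial (Fin 3) k, aeval c P ∈ B := by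
      intro P
      have h1 : aeval c P = B.val (aeval (fun i => (⟨c i, hc i⟩ : B)) P) := by
        rw [MvPolynomial.comp_aeval_apply]; rfl
      rw [h1]
      exact Subtype.mem _
    have hder : ∀ i, ∀ P : MvPolynomial (Fin 3) k, d i (aeval c P) = aeval c (pderiv i P) := by
      intro i P
      induction P using MvPolynomial.induction_on with
      | C a => rw [MvPolynomial.algHom_C, Derivation.map_algebraMap, pderiv_C, map_zero]
      | add P Q hP hQ => rw [map_add, map_add, hP, hQ, map_add, map_add]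
      | mul_X P j hP =>
        rw [map_mul, MvPolynomial.aeval_X, Derivation.leibniz, hP, hd, Derivation.leibniz, pderiv_X, map_add]
        simp only [smul_eq_mul, map_mul, MvPolynomial.aeval_X]
        by_cases hij : i = j
        · subst hij; simp
        · simp [hij, Ne.symm hij]
    have hall : ∀ n : ℕ, ∀ P : MvPolynomial (Fin 3) k, P.totalDegree ≤ n → P ≠ 0 → Un O (aeval c P) := by
      intro n
      induction n with
      | zero =>
        intro P hP hP0
        have h1 : P = MvPolynomial.C (P.coeff 0) := by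
          apply MvPolynomial.totalDegree_eq_zero_iff_eq_C.1
          omega
        rw [h1, MvPolynomial.algHom_C]
        have h2 : P.coeff 0 ≠ 0 := fun h => hP0 (by rw [h1, h, map_zero])
        refine ⟨by simpa using h2, O.algebraMap_mem _, ?_⟩
        rw [← map_inv₀]
        exact O.algebraMap_mem _
      | succ n ih =>
        intro P hP hP0
        by_contra hcon2
        by_cases hall0 : ∀ i, pderiv i P = 0
        · have h1 := eq_C_of_pderiv P hall0
          apply hcon2
          rw [h1, MvPolynomial.algHom_C]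
          have h2 : P.coeff 0 ≠ 0 := fun h => hP0 (by rw [h1, h, map_zero])
          refine ⟨by simpa using h2, O.algebraMap_mem _, ?_⟩
          rw [← map_inv₀]
          exact O.algebraMap_mem _
        · push Not at hall0
          obtain ⟨i, hi⟩ := hall0
          have h1 := totalDegree_pderiv_lt i P hi
          have h2 := ih (pderiv i P) (by omega) hi
          rw [← hder] at h2
          exact hdm i _ (hBO (hcB P)) hcon2 h2
    -- so the `c i` are independent modulo `q`, and `g` gives a fourth element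
    have hind : AlgebraicIndependent k (fun i => Ideal.Quotient.mk q (⟨c i, hc i⟩ : B)) := by
      rw [algebraicIndependent_iff]
      intro P hP
      by_contra hP0
      have h1 := hall P.totalDegree P le_rfl hP0
      have h2 : aeval (fun i => Ideal.Quotient.mk q (⟨c i, hc i⟩ : B)) P =
          (Ideal.Quotient.mkₐ k q) (aeval (fun i => (⟨c i, hc i⟩ : B)) P) := by
        rw [MvPolynomial.comp_aeval_apply]
        rfl
      rw [h2] at hP
      have h3 : aeval (fun i => (⟨c i, hc i⟩ : B)) P ∈ q := Ideal.Quotient.eq_zero_iff_mem.1 hP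
      have h4 := (hqO _).1 h3
      apply h4
      have h5 : ((aeval (fun i => (⟨c i, hc i⟩ : B)) P : B) : K) = aeval c P := by
        change B.val _ = _
        rw [MvPolynomial.comp_aeval_apply]
        rfl
      rw [h5]
      exact h1
    have h1 := option_ind (Ideal.Quotient.mkₐ k q) hind (Ideal.Quotient.eq_zero_iff_mem.2 hgq)
      (fun h => hg0 (congrArg Subtype.val h))
    have h2 := h1.map' (f := B.val) Subtype.val_injective
    exact hfour3 _ h2
  obtain ⟨i, hi⟩ := hunit
  -- the derivative of order `s` of a unit times `p ^ s` is a unit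
  have hadd_unit : ∀ x ∈ O, ∀ y ∈ O, Un O x → ¬ Un O y → Un O (x + y) := by
    intro x hx y hy hxu hyu
    by_contra hcon
    have h1 : ¬ Un O (-y) := by
      intro h
      apply hyu
      refine ⟨fun h0 => h.1 (by rw [h0, neg_zero]), hy, ?_⟩
      have := h.2.2
      rw [inv_neg] at this
      have h3 := O.neg_mem this
      rwa [neg_neg] at h3
    have h2 := hnadd (x + y) (O.add_mem hx hy) hcon (-y) (O.neg_mem hy) h1
    apply h2
    rwa [add_neg_cancel_right]
  have hpow : ∀ s : ℕ, ∀ v : K, Un O v → Un O ((d i)^[s] ((p : K) ^ s * v)) := by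
    intro s
    induction s with
    | zero => intro v hv; simpa using hv
    | succ s ih =>
      intro v hv
      rw [Function.iterate_succ_apply]
      have h1 : d i ((p : K) ^ (s + 1) * v) = (p : K) ^ s * (((s + 1 : ℕ) : K) * v * d i p + p * d i v) := by
        rw [Derivation.leibniz, Derivation.leibniz_pow]
        simp only [smul_eq_mul, nsmul_eq_mul, Nat.add_sub_cancel]
        ring
      rw [h1]
      apply ih
      have hs0 : ((s + 1 : ℕ) : k) ≠ 0 := Nat.cast_ne_zero.2 (Nat.succ_ne_zero s)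
      have hs : Un O ((s + 1 : ℕ) : K) := by
        have e : ((s + 1 : ℕ) : K) = algebraMap k K ((s + 1 : ℕ) : k) := by simp
        rw [e]
        refine ⟨?_, O.algebraMap_mem _, ?_⟩
        · rw [Ne, map_eq_zero_iff _ (algebraMap k K).injective]; exact hs0
        · rw [← map_inv₀]; exact O.algebraMap_mem _
      have h2 : Un O (((s + 1 : ℕ) : K) * v * d i p) := Un.mul (Un.mul hs hv) hi
      refine hadd_unit _ h2.2.1 _ (O.mul_mem p.2 (hdO i _ hv.2.1)) h2 ?_
      rw [mul_comm]
      exact hnmul _ (hdO i _ hv.2.1) _ p.2 hpu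
  -- powers of `p` in `g`
  have hdiv : ∀ n : ℕ, g / (p : K) ^ n ∈ O ∨ ∃ r < n, ∃ v, Un O v ∧ g = (p : K) ^ r * v := by
    intro n
    induction n with
    | zero => left; rw [pow_zero, div_one]; exact hgO
    | succ n ih =>
      rcases ih with h1 | ⟨r, hr, v, hv, e⟩
      · by_cases hu : Un O (g / (p : K) ^ n)
        · right
          refine ⟨n, Nat.lt_succ_self n, _, hu, ?_⟩
          field_simp
        · left
          obtain ⟨y, hy, e⟩ := hirr p hp _ h1 hu
          have : g / (p : K) ^ (n + 1) = y := by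
            rw [pow_succ, ← div_div, e]
            field_simp
          rw [this]
          exact hy
      · right
        exact ⟨r, hr.trans (Nat.lt_succ_self n), v, hv, e⟩
  rcases hdiv (m + 1) with h1 | ⟨r, hr, v, hv, e⟩
  · exact h1
  · exfalso
    obtain ⟨hB, hq⟩ := hdg i r (Nat.lt_succ_iff.1 hr)
    have h2 := (hqO _).1 hq
    apply h2
    have h3 := hpow r v hv
    rw [← e] at h3
    exact h3

end Pool.Agent.H46.TV
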